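import Mathlib

/-!
# Cubes among the counts of Sophie Germain primes at `n - p`
-/

set_option autoImplicit false

open Finset

namespace Pool.Agent.Results.MP_ba50ed_nt.FiniteCase

/-- `q` is a Sophie Germain prime -/
def SG (q : ℕ) : Prop := q.Prime ∧ (2 * q + 1).Prime

instance : DecidablePred SG := fun _ => inferInstanceAs (Decidable (_ ∧ _))

/-- the number of Sophie Germain primes among `1, ..., x` -/
def S (x : ℕ) : ℕ := ((Icc 1 x).filter SG).card

/-- some prime `p < n` is such that `S (n - p)` is a cube -/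
def Good (n : ℕ) : Prop := ∃ p, p < n ∧ p.Prime ∧ ∃ k : ℕ, S (n - p) = k ^ 3

theorem S_mono {x y : ℕ} (h : x ≤ y) : S x ≤ S y :=
  card_le_card (filter_subset_filter _ (Icc_subset_Icc_right h))

theorem not_prime_fact {N j : ℕ} (h2 : 2 ≤ j) (hj : j ≤ N) : ¬ (N.factorial + j).Prime := by
  intro hp
  have hd : j ∣ N.factorial + j := by
    refine (Nat.dvd_add_right ?_).2 dvd_rfl
    exact Nat.dvd_factorial (by omega) hj
  rcases (Nat.dvd_prime hp).1 hd with h | h
  · omega
  · have := Nat.factorial_pos N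
    omega

/-- if `N! + X + 1 ≤ n ≤ N! + N + 1`, then every prime `p < n` has `n - p ≥ X` -/
theorem gap {X N n p : ℕ} (h1 : N.factorial + X + 1 ≤ n) (h2 : n ≤ N.factorial + N + 1)
    (hp : p.Prime) (hlt : p < n) : X ≤ n - p := by
  by_contra hcon
  refine not_prime_fact (N := N) (j := p - N.factorial) (by omega) (by omega) ?_
  have : N.factorial + (p - N.factorial) = p := by omega
  rwa [this]

/-- the local criterion -/
theorem criterion (X N k : ℕ) (hS : k ^ 3 < S X)
    (hS' : S (N.factorial + N - 1) < (k + 1) ^ 3) (n : ℕ) (h1 : N.factorial + X + 1 ≤ n)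
    (h2 : n ≤ N.factorial + N + 1) : ¬ Good n := by
  rintro ⟨p, hlt, hp, m, hm⟩
  have h3 := S_mono (gap h1 h2 hp hlt)
  have h4 : S (n - p) ≤ S (N.factorial + N - 1) := S_mono (by have := hp.two_le; omega)
  have h5 : k < m := lt_of_pow_lt_pow_left₀ 3 (Nat.zero_le m) (by omega)
  have h6 : m < k + 1 := lt_of_pow_lt_pow_left₀ 3 (Nat.zero_le _) (by omega)
  omega

theorem S_eventually (hfin : {q | SG q}.Finite) :
    ∃ X, ∀ x, X ≤ x → S x = {q | SG q}.ncard := by
  obtain ⟨X, hX⟩ := hfin.bddAbove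
  refine ⟨X, fun x hx => ?_⟩
  have h1 : {q | SG q} = (((Icc 1 x).filter SG : Finset ℕ) : Set ℕ) := by
    ext q
    rw [mem_coe, mem_filter, mem_Icc]
    constructor
    · intro hq
      have h2 : SG q := hq
      exact ⟨⟨h2.1.one_le, (hX hq).trans hx⟩, h2⟩
    · exact fun hq => hq.2
  rw [h1, Set.ncard_coe_finset]
  rfl

/-- a number which is not a cube lies strictly between two consecutive cubes -/
theorem between (c : ℕ) (hc : ¬ ∃ k : ℕ, c = k ^ 3) : ∃ k : ℕ, k ^ 3 < c ∧ c < (k + 1) ^ 3 := by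
  have h1 : ∃ k : ℕ, c < (k + 1) ^ 3 :=
    ⟨c, lt_of_lt_of_le (Nat.lt_succ_self c) (Nat.le_self_pow (by norm_num) _)⟩
  classical
  refine ⟨Nat.find h1, ?_, Nat.find_spec h1⟩
  by_contra hcon
  rcases Nat.eq_zero_or_pos (Nat.find h1) with h0 | hpos
  · exact hc ⟨0, by rw [h0] at hcon; omega⟩
  · have h2 := Nat.find_min h1 (m := Nat.find h1 - 1) (by omega)
    rw [Nat.sub_add_cancel hpos] at h2
    exact hc ⟨Nat.find h1, by omega⟩

/-- **The question for the Sophie Germain prime counts, and the number of Sophie Germain primes.**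
(1) If `S X > k ^ 3` and `S (N! + N - 1) < (k + 1) ^ 3`, then no `n` with
`N! + X + 1 ≤ n ≤ N! + N + 1` is good.
(2) If there are only finitely many Sophie Germain primes, then all large `n` are good if and only
if their number is a cube. -/
theorem result :
    (∀ X N k : ℕ, k ^ 3 < S X → S (N.factorial + N - 1) < (k + 1) ^ 3 →
      ∀ n, N.factorial + X + 1 ≤ n → n ≤ N.factorial + N + 1 → ¬ Good n) ∧
    ({q | SG q}.Finite →
      ((∃ n₀, ∀ n, n₀ ≤ n → Good n) ↔ ∃ k : ℕ, {q | SG q}.ncard = k ^ 3)) := by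
  refine ⟨criterion, ?_⟩
  intro hfin
  obtain ⟨X, hX⟩ := S_eventually hfin
  constructor
  · rintro ⟨n₀, hn₀⟩
    by_contra hnc
    obtain ⟨k, hk1, hk2⟩ := between _ hnc
    have hf := Nat.self_le_factorial (X + n₀ + 1)
    refine criterion X (X + n₀ + 1) k ?_ ?_ ((X + n₀ + 1).factorial + (X + n₀ + 1) + 1)
      (by omega) (le_refl _) (hn₀ _ (by omega))
    · rw [hX _ (le_refl _)]
      exact hk1
    · rw [hX _ (by omega)]
      exact hk2
  · rintro ⟨k, hk⟩
    refine ⟨X + 3, fun n hn => ⟨2, by omega, Nat.prime_two, k, ?_⟩⟩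
    rw [hX _ (by omega), hk]

end Pool.Agent.Results.MP_ba50ed_nt.FiniteCase
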